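import Pool.Agent.H561.GPD.Beta

/-!
# MP_0c1da6_nt, Q1: `β > α` for sets without geometric progressions
-/

set_option autoImplicit false

namespace Pool.Agent.Results.MP_0c1da6_nt.DensitySeparation

open Filter

/-- `A` contains no three-term geometric progression `a, a k, a k²` with rational ratio `k > 1` -/
def GPFree (A : Set ℕ) : Prop :=
  ¬ ∃ a ∈ A, ∃ b ∈ A, ∃ c ∈ A, ∃ k : ℚ, 1 < k ∧ (b : ℚ) = a * k ∧ (c : ℚ) = a * k ^ 2

/-- `A` contains no three-term geometric progression `a, a k, a k²` with integer ratio `k ≥ 2` -/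
def IntegerGPFree (A : Set ℕ) : Prop :=
  ¬ ∃ a ∈ A, ∃ k : ℕ, 2 ≤ k ∧ a * k ∈ A ∧ a * k ^ 2 ∈ A

/-- `A` has the asymptotic density `d` -/
def HasDensity (A : Set ℕ) (d : ℝ) : Prop :=
  Tendsto (fun N : ℕ => ((A ∩ Set.Icc 1 N).ncard : ℝ) / N) atTop (nhds d)

/-- `α`, the supremum of the asymptotic densities of the sets of positive integers which have a
density and contain no progression with rational ratio -/
noncomputable def alpha : ℝ :=
  sSup {d : ℝ | ∃ A : Set ℕ, (∀ a ∈ A, 0 < a) ∧ GPFree A ∧ HasDensity A d}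

/-- `β`, the supremum of the asymptotic densities of the sets of positive integers which have a
density and contain no progression with integer ratio -/
noncomputable def beta : ℝ :=
  sSup {d : ℝ | ∃ A : Set ℕ, (∀ a ∈ A, 0 < a) ∧ IntegerGPFree A ∧ HasDensity A d}

open Pool.Agent.H413R3 Pool.Agent.H561.GPD

lemma gpf_of_free {A : Set ℕ} (hpos : ∀ a ∈ A, 0 < a) (h : GPFree A) : KG.GPF 3 A := by
  apply gpf3_of
  intro a ha b hb c hc habc
  by_contra hne
  have ha0 : (0 : ℚ) < a := by exact_mod_cast hpos a ha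
  have hb0 : (0 : ℚ) < b := by exact_mod_cast hpos b hb
  have hc0 : (0 : ℚ) < c := by exact_mod_cast hpos c hc
  have e : (b : ℚ) ^ 2 = a * c := by exact_mod_cast habc
  rcases lt_or_gt_of_ne hne with hab | hab
  · refine h ⟨a, ha, b, hb, c, hc, (b : ℚ) / a, ?_, ?_, ?_⟩
    · rw [one_lt_div ha0]
      exact_mod_cast hab
    · field_simp
    · field_simp
      linarith
  · have hcb : c < b := by
      by_contra hle
      push Not at hle
      have h1 : b * b < a * c := Nat.mul_lt_mul_of_lt_of_le hab hle (hpos c hc)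
      rw [← habc, pow_two] at h1
      exact lt_irrefl _ h1
    refine h ⟨c, hc, b, hb, a, ha, (b : ℚ) / c, ?_, ?_, ?_⟩
    · rw [one_lt_div hc0]
      exact_mod_cast hcb
    · field_simp
    · field_simp
      linarith

lemma BB_ok : IntegerGPFree BB := by
  rintro ⟨a, ha, k, hk, h1, h2⟩
  rw [pow_two] at h2
  exact BB_free hk ha h1 h2

lemma density_le_one {A : Set ℕ} {d : ℝ} (h : HasDensity A d) : d ≤ 1 := by
  refine le_of_tendsto h ?_
  filter_upwards [eventually_ge_atTop 1] with N hN
  have hN0 : (0 : ℝ) < N := by exact_mod_cast hN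
  rw [div_le_one hN0]
  exact_mod_cast KG.cnt_le A N

/-- The strict inequality `α < β`, with the bounds `α ≤ 0.7223` and `β ≥ 0.7227`. -/
theorem result : alpha ≤ 7223 / 10000 ∧ 7227 / 10000 ≤ beta ∧ alpha < beta := by
  have h1 : alpha ≤ 7223 / 10000 := by
    apply csSup_le
    · refine ⟨0, ∅, by simp, ?_, ?_⟩
      · rintro ⟨a, ha, _⟩
        exact ha
      · unfold HasDensity
        simp
    · rintro d ⟨A, hpos, hfree, hd⟩
      exact dens_le (fun n hn => hpos n hn) (gpf_of_free hpos hfree) hd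
  have h2 : 7227 / 10000 ≤ beta := by
    obtain ⟨d, hd, hd2⟩ := BB_dens
    refine hd2.trans (le_csSup ⟨1, ?_⟩ ⟨BB, ?_, BB_ok, hd⟩)
    · rintro x ⟨A, _, _, hx⟩
      exact density_le_one hx
    · intro n hn
      exact (BB_exp hn).1
  refine ⟨h1, h2, lt_of_le_of_lt h1 (lt_of_lt_of_le (by norm_num) h2)⟩

end Pool.Agent.Results.MP_0c1da6_nt.DensitySeparation
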